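import Pool.Agent.Lib.MP_ca7d12_nt.W.MainW

set_option autoImplicit false

namespace Pool.Agent.MP_ca7d12_nt

open NumberField

open MainT in
/-- Modules over `ℤ + n 𝓞_K` have index at least `n ^ 2`. -/
theorem latticeIndex_ge (K : Type*) [Field K] [NumberField K] (hK : Module.finrank ℚ K = 3)
    (α : Fin 3 → K) (n : ℕ) (hn : n ≠ 0) (hα : LinearIndependent ℚ α) (hcy : CyclicModulo K α n) :
    n ^ 2 ≤ latticeIndex K α := by
  obtain ⟨L, hL0, hL⟩ := exists_reduction K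
  obtain ⟨hst, g₀, hg₀, hcyc₀⟩ := hcy
  obtain ⟨I, hI, lam, α', hlam, hα', hspan, hclo⟩ := hL α n hα hst
  have hsp := span_closure I α' hspan
  rw [latticeIndex_scale K α lam hlam α' hα' I hspan]
  set M : AddSubgroup (𝓞 K) := AddSubgroup.closure (Set.range α') with hMdef
  have hMI : ∀ x ∈ M, x ∈ I := fun x hx => by rw [← hsp]; exact Ideal.subset_span hx
  obtain ⟨g, hgM, hg⟩ := up α α' lam hα' g₀ hg₀
  have hcyc : ∀ x ∈ M, ∃ c : ℤ, ∃ y ∈ I, x - (c : 𝓞 K) * g = (n : 𝓞 K) * y := by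
    intro x hx
    obtain ⟨x₀, hx₀, hxx⟩ := down α α' lam hα' x hx
    obtain ⟨c, hc⟩ := hcyc₀ x₀ hx₀
    have key : ∀ w ∈ Submodule.span ℤ {y : K | ∃ z : 𝓞 K,
        ∃ x' ∈ Submodule.span ℤ (Set.range α), y = (n : K) * (z : K) * x'},
        ∃ y ∈ I, lam * w = (n : K) * (y : K) := by
      intro w hw
      induction hw using Submodule.span_induction with
      | mem w hw =>
        obtain ⟨z, x', hx', rfl⟩ := hw
        obtain ⟨x'', hx'', hxx''⟩ := up α α' lam hα' x' hx'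
        refine ⟨z * x'', I.mul_mem_left _ (hMI _ hx''), ?_⟩
        rw [coe_mul', hxx'']
        ring
      | zero => exact ⟨0, I.zero_mem, by simp⟩
      | add x y _ _ hx hy =>
        obtain ⟨x₀, hx₀, hx⟩ := hx
        obtain ⟨y₀, hy₀, hy⟩ := hy
        exact ⟨x₀ + y₀, I.add_mem hx₀ hy₀, by rw [coe_add', mul_add, hx, hy]; ring⟩
      | smul c x _ hx =>
        obtain ⟨x₀, hx₀, hx⟩ := hx
        refine ⟨(c : 𝓞 K) * x₀, I.mul_mem_left _ hx₀, ?_⟩
        rw [zsmul_eq_mul, coe_mul', coe_int]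
        linear_combination (c : K) * hx
    obtain ⟨y, hy, hyy⟩ := key _ hc
    refine ⟨c, y, hy, ?_⟩
    apply RingOfIntegers.ext
    rw [coe_sub', coe_mul', coe_mul', coe_int, coe_nat, hxx, hg]
    linear_combination hyy
  exact index_ge_W K hK I (hL0 I hI) n hn M hMI hclo g (hMI g hgM) hcyc

end Pool.Agent.MP_ca7d12_nt
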