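import Pool.Agent.Lib.MP_ca7d12_nt.W.Defs

set_option autoImplicit false

namespace Pool.Agent.MP_ca7d12_nt

open NumberField

/-- The ring of integers has only finitely many additive subgroups of bounded index. -/
theorem finite_subgroups (K : Type*) [Field K] [NumberField K] (B : ℕ) :
    {M : AddSubgroup (𝓞 K) | M.index ≠ 0 ∧ M.index ≤ B}.Finite := by
  let b : 𝓞 K := ((Nat.factorial B : ℕ) : 𝓞 K)
  let I : Ideal (𝓞 K) := Ideal.span {b}
  have hb : b ≠ 0 := Nat.cast_ne_zero.2 (Nat.factorial_ne_zero B)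
  have hI : I ≠ ⊥ := by
    intro h
    exact hb (Ideal.span_singleton_eq_bot.1 h)
  have hfin : Finite (𝓞 K ⧸ I) := Ideal.finiteQuotientOfFreeOfNeBot I hI
  have hfin2 : Finite (AddSubgroup (𝓞 K ⧸ I)) := inferInstance
  let q : 𝓞 K →+ 𝓞 K ⧸ I := (Ideal.Quotient.mk I : 𝓞 K →+* 𝓞 K ⧸ I).toAddMonoidHom
  refine (Set.finite_range (fun H : AddSubgroup (𝓞 K ⧸ I) => H.comap q)).subset ?_
  rintro M ⟨h0, hB⟩
  refine ⟨M.map q, ?_⟩
  show (M.map q).comap q = M
  apply AddSubgroup.comap_map_eq_self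
  intro x hx
  have h1 : q x = 0 := hx
  have h2 : x ∈ I := Ideal.Quotient.eq_zero_iff_mem.1 h1
  obtain ⟨y, rfl⟩ := Ideal.mem_span_singleton.1 h2
  have h3 : M.index ∣ Nat.factorial B := Nat.dvd_factorial (Nat.pos_of_ne_zero h0) hB
  obtain ⟨c, hc⟩ := h3
  have h4 : b * y = M.index • ((c : 𝓞 K) * y) := by
    show ((Nat.factorial B : ℕ) : 𝓞 K) * y = _
    rw [hc, nsmul_eq_mul]
    push_cast
    ring
  rw [h4]
  exact AddSubgroup.nsmul_index_mem M _

end Pool.Agent.MP_ca7d12_nt
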