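import Pool.Agent.Lib.MP_ca7d12_nt.W.Defs

set_option autoImplicit false

namespace Pool.Agent.MP_ca7d12_nt

open NumberField

/-- If `M / n I` is cyclic then `M` has index at least `n ^ 2` in `I`. (Same proof as `index_ge` in
`T/IndexGe.lean`, working inside `I` instead of `𝓞 K`.) -/
theorem index_ge_W (K : Type*) [Field K] [NumberField K] (hK : Module.finrank ℚ K = 3)
    (I : Ideal (𝓞 K)) (hI : I ≠ ⊥) (n : ℕ) (hn : n ≠ 0) (M : AddSubgroup (𝓞 K))
    (hMI : ∀ x ∈ M, x ∈ I) (hM : ∀ y ∈ I, (n : 𝓞 K) * y ∈ M) (g : 𝓞 K) (hg : g ∈ I)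
    (hcyc : ∀ x ∈ M, ∃ c : ℤ, ∃ y ∈ I, x - (c : 𝓞 K) * g = (n : 𝓞 K) * y) :
    n ^ 2 ≤ M.relIndex (Submodule.toAddSubgroup I) := by
  classical
  have : NeZero n := ⟨hn⟩
  set J : Ideal (𝓞 K) := Ideal.span {(n : 𝓞 K)} * I with hJ
  have hmemJ : ∀ x, x ∈ J ↔ ∃ z ∈ I, (n : 𝓞 K) * z = x := fun x =>
    Ideal.mem_span_singleton_mul
  set N : AddSubgroup (𝓞 K) := Submodule.toAddSubgroup J with hN
  have hmemN : ∀ x, x ∈ N ↔ ∃ z ∈ I, (n : 𝓞 K) * z = x := fun x => hmemJ x
  have hNM : N ≤ M := by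
    intro x hx
    obtain ⟨z, hz, rfl⟩ := (hmemN x).1 hx
    exact hM z hz
  have hnorm : Ideal.absNorm (Ideal.span {(n : 𝓞 K)}) = n ^ 3 := by
    rw [Ideal.absNorm_span_singleton]
    have h1 : ((n : ℕ) : 𝓞 K) = algebraMap ℤ (𝓞 K) (n : ℤ) := by simp
    rw [h1, Algebra.norm_algebraMap, NumberField.RingOfIntegers.rank, hK]
    simp [Int.natAbs_pow]
  have hNi : N.index = n ^ 3 * Ideal.absNorm I := by
    have h1 : N.index = Ideal.absNorm J := rfl
    rw [h1, hJ, map_mul, hnorm]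
  have hI1 : 1 ≤ Ideal.absNorm I := by
    have := mt Ideal.absNorm_eq_zero_iff.1 hI
    omega
  -- the relative index is at most `n`
  have hrel : N.relIndex M ≤ n := by
    choose c hc using fun x : M => hcyc x.1 x.2
    let φ : (M ⧸ N.addSubgroupOf M) → ZMod n := fun q => ((c q.out : ℤ) : ZMod n)
    have hφ : Function.Injective φ := by
      intro q q' hqq
      have h1 : ((c q.out : ℤ) : ZMod n) = ((c q'.out : ℤ) : ZMod n) := hqq
      rw [ZMod.intCast_eq_intCast_iff_dvd_sub] at h1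
      obtain ⟨e, he⟩ := h1
      obtain ⟨y, hy, hy1⟩ := hc q.out
      obtain ⟨y', hy', hy1'⟩ := hc q'.out
      have h2 : QuotientAddGroup.mk q.out = (QuotientAddGroup.mk q'.out :
          M ⧸ N.addSubgroupOf M) := by
        rw [QuotientAddGroup.eq, AddSubgroup.mem_addSubgroupOf, hmemN]
        refine ⟨(e : 𝓞 K) * g + y' - y,
          I.sub_mem (I.add_mem (I.mul_mem_left _ hg) hy') hy, ?_⟩
        have h3 : ((c q'.out : ℤ) : 𝓞 K) - ((c q.out : ℤ) : 𝓞 K) = (n : 𝓞 K) * (e : 𝓞 K) := by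
          have := congrArg (fun a : ℤ => (a : 𝓞 K)) he
          push_cast at this
          exact this
        push_cast
        linear_combination hy1 - hy1' - h3 * g
      have e1 : (QuotientAddGroup.mk q.out : M ⧸ N.addSubgroupOf M) = q := Quotient.out_eq' q
      have e2 : (QuotientAddGroup.mk q'.out : M ⧸ N.addSubgroupOf M) = q' := Quotient.out_eq' q'
      rw [← e1, ← e2]
      exact h2
    have h4 : Nat.card (M ⧸ N.addSubgroupOf M) ≤ Nat.card (ZMod n) :=
      Nat.card_le_card_of_injective φ hφ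
    rw [Nat.card_zmod] at h4
    exact h4
  -- inside `I`
  have hMI' : M ≤ Submodule.toAddSubgroup I := fun x hx => hMI x hx
  have hrr := AddSubgroup.relIndex_mul_relIndex N M (Submodule.toAddSubgroup I) hNM hMI'
  have hri := AddSubgroup.relIndex_mul_index (hNM.trans hMI')
  have hIi : (Submodule.toAddSubgroup I).index = Ideal.absNorm I := rfl
  rw [hNi, hIi] at hri
  have hNI : N.relIndex (Submodule.toAddSubgroup I) = n ^ 3 :=
    Nat.eq_of_mul_eq_mul_right hI1 hri
  rw [hNI] at hrr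
  have h6 : n * n ^ 2 ≤ n * M.relIndex (Submodule.toAddSubgroup I) := by
    calc n * n ^ 2 = n ^ 3 := by ring
      _ = N.relIndex M * M.relIndex (Submodule.toAddSubgroup I) := hrr.symm
      _ ≤ n * M.relIndex (Submodule.toAddSubgroup I) := Nat.mul_le_mul_right _ hrel
  exact Nat.le_of_mul_le_mul_left h6 (Nat.pos_of_ne_zero hn)

end Pool.Agent.MP_ca7d12_nt
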