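import Pool.Agent.Lib.MP_ca7d12_nt.W.IndexW
import Pool.Agent.Lib.MP_ca7d12_nt.T.KeyT

set_option autoImplicit false

namespace Pool.Agent.MP_ca7d12_nt

open NumberField

/-- Key lemma for all lattices: a subgroup `M` which generates the ideal `I` and contains `n I`
contains a nonzero element of norm at most `C n ^ (3/2)`. -/
theorem exists_small_W (K : Type*) [Field K] [NumberField K] (hK : Module.finrank ℚ K = 3)
    (σ : Fin 3 → K →+* ℝ) (hσ : Function.Injective σ) (S : Finset ℕ) (hS : ∀ p ∈ S, p.Prime)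
    (I : Ideal (𝓞 K)) (hI : I ≠ ⊥) :
    ∃ C : ℝ, 0 < C ∧ ∀ (n : ℕ), IsSNumber S n → ∀ M : AddSubgroup (𝓞 K),
      Ideal.span (M : Set (𝓞 K)) = I → (∀ y ∈ I, (n : 𝓞 K) * y ∈ M) →
      ∃ x ∈ M, x ≠ 0 ∧ ((|Algebra.norm ℤ x| : ℤ) : ℝ) ^ 2 ≤ C * (n : ℝ) ^ 3 := by
  obtain ⟨η₀, hη₀⟩ := exists_unit K hK σ hσ
  have hR : ∀ q : ℤ, IsUnit (q : 𝓞 K) → IsUnit q := isUnit_of_isUnit_intCast K
  set P : ℤ := ∏ p ∈ S, (p : ℤ) with hP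
  set PN : ℕ := ∏ p ∈ S, p with hPN
  have hPPN : P = (PN : ℤ) := by rw [hP, hPN]; push_cast; rfl
  have hPN0 : PN ≠ 0 := Finset.prod_ne_zero_iff.mpr fun p hp => (hS p hp).ne_zero
  have hP0 : P ≠ 0 := by rw [hPPN]; exact_mod_cast hPN0
  have hSP : ∀ p ∈ S, (p : ℤ) ∣ P := fun p hp => by
    rw [hP]
    exact Finset.dvd_prod_of_mem (fun p : ℕ => (p : ℤ)) hp
  obtain ⟨η, c₀, D, v, hD, hPD, hη, hprim⟩ :=
    exists_level K η₀ hη₀ (P ^ 2) (pow_ne_zero 2 hP0)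
  obtain ⟨C₀, hC₀, hcoset⟩ := small_in_coset K hK σ hσ
  obtain ⟨xI, hxI, hxI0⟩ := Submodule.exists_mem_ne_zero_of_ne_bot hI
  obtain ⟨h, hav⟩ := exists_avoid K P hP0
  set H : ℕ := PN ^ h with hH
  have hH0 : H ≠ 0 := pow_ne_zero _ hPN0
  set B : ℝ := C₀ * ((Ideal.absNorm I : ℝ) * ((H : ℝ) * (PN : ℝ)) * ((H : ℝ) * (D.natAbs : ℝ)))
    with hB
  set A : ℝ := (H : ℝ) ^ 3 * ((|Algebra.norm ℤ xI| : ℤ) : ℝ) ^ 2 with hA
  have hA0 : 0 ≤ A := by positivity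
  refine ⟨B ^ 2 * PN + A + 1, by positivity, ?_⟩
  rintro n ⟨hn0, hnS⟩ M hM hnM
  have hnr : (0 : ℝ) ≤ (n : ℝ) ^ 3 := by positivity
  by_cases hn : n ∣ H
  · refine ⟨(n : 𝓞 K) * xI, hnM xI hxI, mul_ne_zero (Nat.cast_ne_zero.mpr hn0) hxI0, ?_⟩
    have h1 : Algebra.norm ℤ ((n : 𝓞 K) * xI) = (n : ℤ) ^ 3 * Algebra.norm ℤ xI := by
      rw [map_mul]
      congr 1
      have e : ((n : ℕ) : 𝓞 K) = algebraMap ℤ (𝓞 K) (n : ℤ) := by simp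
      rw [e, Algebra.norm_algebraMap, NumberField.RingOfIntegers.rank, hK]
    have h2 : ((|Algebra.norm ℤ ((n : 𝓞 K) * xI)| : ℤ) : ℝ) =
        (n : ℝ) ^ 3 * ((|Algebra.norm ℤ xI| : ℤ) : ℝ) := by
      rw [h1, abs_mul]
      push_cast
      rw [abs_of_nonneg hnr]
    have h3 : (n : ℝ) ≤ (H : ℝ) := by
      exact_mod_cast Nat.le_of_dvd (Nat.pos_of_ne_zero hH0) hn
    have h4 : (n : ℝ) ^ 3 ≤ (H : ℝ) ^ 3 := pow_le_pow_left₀ (by positivity) h3 3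
    rw [h2]
    calc ((n : ℝ) ^ 3 * ((|Algebra.norm ℤ xI| : ℤ) : ℝ)) ^ 2
        = (n : ℝ) ^ 3 * (((|Algebra.norm ℤ xI| : ℤ) : ℝ) ^ 2) * (n : ℝ) ^ 3 := by ring
      _ ≤ (H : ℝ) ^ 3 * (((|Algebra.norm ℤ xI| : ℤ) : ℝ) ^ 2) * (n : ℝ) ^ 3 := by
          gcongr
      _ = A * (n : ℝ) ^ 3 := by rw [hA]
      _ ≤ (B ^ 2 * PN + A + 1) * (n : ℝ) ^ 3 := by
          refine mul_le_mul_of_nonneg_right ?_ hnr
          have : (0 : ℝ) ≤ B ^ 2 * PN := by positivity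
          linarith
  -- the main case
  obtain ⟨g, hgM, hgav⟩ := hav I hI M hM
  have hgI : g ∈ I := by rw [← hM]; exact Ideal.subset_span hgM
  have hnPN : ∃ k : ℕ, n ∣ PN ^ k := dvd_pow_of_primes PN n hn0 (fun p hp hpn =>
    Finset.dvd_prod_of_mem (fun p : ℕ => p) (hnS p hp hpn))
  obtain ⟨k, hk⟩ := hnPN
  have hgen : ∀ y ∈ I, ∃ z : 𝓞 K, ∃ y' ∈ I, (H : 𝓞 K) * y = g * z + (n : 𝓞 K) * y' := by
    intro y hy
    obtain ⟨z, y', hy', hzy⟩ := mem_of_avoid K P hP0 h I hI g hgI hgav k y hy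
    obtain ⟨q, hq⟩ := hk
    refine ⟨z, (q : 𝓞 K) * y', I.mul_mem_left _ hy', ?_⟩
    have h1 : (H : 𝓞 K) = (P : 𝓞 K) ^ h := by
      rw [hH, hPPN]
      push_cast
      rfl
    have h2 : (P : 𝓞 K) ^ k = (n : 𝓞 K) * (q : 𝓞 K) := by
      have h3 : ((PN ^ k : ℕ) : 𝓞 K) = ((n * q : ℕ) : 𝓞 K) := congrArg (fun z : ℕ => (z : 𝓞 K)) hq
      rw [hPPN]
      push_cast at h3 ⊢
      exact h3
    rw [h1, hzy, h2]
    ring
  obtain ⟨s, hs0, hsS, hns, hsn⟩ := exists_sqrtS S hS n hn0 hnS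
  obtain ⟨ηs, cs, r, ys, hηs, hcsD, hrP⟩ := levelS hR P D hP0 hPD η c₀ v hη s hs0
    (fun p hp hps => hSP p (hsS p hp hps))
  set v' : 𝓞 K := (r : 𝓞 K) * v + (P : 𝓞 K) * ys with hv'
  have hprim' : ∀ p : ℕ, p.Prime → p ∣ n → ∀ (i : ℤ) (w : 𝓞 K), v' ≠ (i : 𝓞 K) + (p : 𝓞 K) * w := by
    intro p hp hpn i w hiw
    have hpP := hSP p (hnS p hp hpn)
    have hrp : IsCoprime r (p : ℤ) := hrP.of_isCoprime_of_dvd_right hpP
    obtain ⟨P', hP'⟩ := hpP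
    obtain ⟨a, b, hab⟩ := hrp
    have hab' : (a : 𝓞 K) * (r : 𝓞 K) + (b : 𝓞 K) * (p : 𝓞 K) = 1 := by
      have := congrArg (fun z : ℤ => (z : 𝓞 K)) hab
      simpa using this
    have hP'' : (P : 𝓞 K) = (p : 𝓞 K) * (P' : 𝓞 K) := by rw [hP']; push_cast; ring
    refine hprim p hp (a * i) ((a : 𝓞 K) * w - (a : 𝓞 K) * (P' : 𝓞 K) * ys + (b : 𝓞 K) * v) ?_
    rw [hv', hP''] at hiw
    push_cast
    linear_combination (-v) * hab' + (a : 𝓞 K) * hiw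
  have hind := fun x y => indepS hR v' n hn0 hprim' x y
  have hDn : D.natAbs ≠ 0 := Int.natAbs_ne_zero.mpr hD
  obtain ⟨hidx0, hidx⟩ := index_LL_W K hK I hI n hn0 H hH0 g v' PN (D.natAbs * s) hPN0
    (mul_ne_zero hDn hs0) hgI hgen hind
  have hk' : (n : ℤ) ∣ P ^ k := by rw [hPPN]; exact_mod_cast hk
  -- `1 + PN c` is coprime to `n`
  have hcop1 : ∀ c : ℤ, IsCoprime (1 + P * c) (n : ℤ) := by
    intro c
    have h1 : IsCoprime (1 + P * c) P := ⟨1, -c, by ring⟩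
    exact (h1.pow_right (n := k)).of_isCoprime_of_dvd_right hk'
  have hcsn : IsCoprime cs (n : ℤ) := by
    have h1 : IsCoprime cs P := hcsD.of_isCoprime_of_dvd_right
      ((dvd_pow_self P two_ne_zero).trans hPD)
    exact (h1.pow_right (n := k)).of_isCoprime_of_dvd_right hk'
  have hDs : ((D.natAbs : ℕ) : 𝓞 K) = (D.sign : 𝓞 K) * (D : 𝓞 K) := UnitsA.cast_natAbs' D
  have hgΛ : g ∉ LL K I n g v' PN (D.natAbs * s) := by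
    rintro ⟨c, t, z, hz, hgz⟩
    have h1 : g * (1 - ((PN : 𝓞 K) * (c : 𝓞 K) + ((D.natAbs * s : ℕ) : 𝓞 K) * (t : 𝓞 K) * v')) =
        (n : 𝓞 K) * z := by linear_combination hgz
    have h2 := dvd_of_mul_mem_W K I hI n hn0 H g hgen _ z hz h1
    have h3 : (H : 𝓞 K) * (1 - ((PN : 𝓞 K) * (c : 𝓞 K) +
        ((D.natAbs * s : ℕ) : 𝓞 K) * (t : 𝓞 K) * v')) =
        (((H : ℤ) * (1 + P * (-c)) : ℤ) : 𝓞 K) +
          ((-((H : ℤ) * (D.sign * D * (s : ℤ) * t)) : ℤ) : 𝓞 K) * v' := by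
      rw [hPPN, Nat.cast_mul, hDs]
      push_cast
      ring
    rw [h3] at h2
    have h4 := (hind _ _ h2).1
    have h5 := hcop1 (-c)
    have h6 : (n : ℤ) ∣ (H : ℤ) := h5.symm.dvd_of_dvd_mul_right h4
    exact hn (by exact_mod_cast h6)
  obtain ⟨y, hyΛ, hy0, hyN⟩ := hcoset _ hidx0 g hgΛ
  obtain ⟨c, t, z, hz, hyz⟩ := hyΛ
  -- rewrite `y`
  have hy : y = g * (((1 + P * c : ℤ) : 𝓞 K) + (D : 𝓞 K) * (s : 𝓞 K) * ((D.sign * t : ℤ) : 𝓞 K) * v') +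
      (n : 𝓞 K) * z := by
    rw [Nat.cast_mul, hDs] at hyz
    rw [hPPN]
    push_cast
    linear_combination hyz
  have hyI : y ∈ I := by
    rw [hy]
    exact I.add_mem (I.mul_mem_right _ hgI) (I.mul_mem_left _ hz)
  obtain ⟨u, c', a, b, e, hfin⟩ := KeyT.unit_part ηs cs D (D.sign * t) (1 + P * c) s n hn0 v' g y z
    hηs hns hcsn (hcop1 c) hy
  have huu : ((u⁻¹ : (𝓞 K)ˣ) : 𝓞 K) * (u : 𝓞 K) = 1 := Units.inv_mul u
  refine ⟨((u⁻¹ : (𝓞 K)ˣ) : 𝓞 K) * y, ?_, mul_ne_zero (Units.ne_zero _) hy0, ?_⟩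
  · have h1 : ((u⁻¹ : (𝓞 K)ˣ) : 𝓞 K) * y = c' • g +
        (n : 𝓞 K) * (((u⁻¹ : (𝓞 K)ˣ) : 𝓞 K) * (a * y + b * z + e * g)) := by
      rw [zsmul_eq_mul]
      linear_combination ((u⁻¹ : (𝓞 K)ˣ) : 𝓞 K) * hfin + (c' : 𝓞 K) * g * huu
    rw [h1]
    refine M.add_mem (M.zsmul_mem hgM c') (hnM _ (I.mul_mem_left _ ?_))
    exact I.add_mem (I.add_mem (I.mul_mem_left _ hyI) (I.mul_mem_left _ hz)) (I.mul_mem_left _ hgI)
  · rw [map_mul, abs_mul]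
    have h1 : IsUnit (Algebra.norm ℤ ((u⁻¹ : (𝓞 K)ˣ) : 𝓞 K)) := (Units.isUnit _).map _
    rw [Int.isUnit_iff_abs_eq.mp h1, one_mul]
    have h2 : ((|Algebra.norm ℤ y| : ℤ) : ℝ) ≤ B * ((n : ℝ) * (s : ℝ)) := by
      refine hyN.trans ?_
      have h3 : ((LL K I n g v' PN (D.natAbs * s)).index : ℝ) ≤
          (Ideal.absNorm I : ℝ) * ((n : ℝ) * ((H : ℝ) * (PN : ℝ)) *
            ((H : ℝ) * ((D.natAbs : ℝ) * (s : ℝ)))) := by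
        exact_mod_cast hidx
      calc C₀ * ((LL K I n g v' PN (D.natAbs * s)).index : ℝ)
          ≤ C₀ * ((Ideal.absNorm I : ℝ) * ((n : ℝ) * ((H : ℝ) * (PN : ℝ)) *
            ((H : ℝ) * ((D.natAbs : ℝ) * (s : ℝ))))) :=
            mul_le_mul_of_nonneg_left h3 hC₀.le
        _ = B * ((n : ℝ) * (s : ℝ)) := by rw [hB]; ring
    have h4 : (0 : ℝ) ≤ ((|Algebra.norm ℤ y| : ℤ) : ℝ) := by exact_mod_cast abs_nonneg _
    have h5 : (s : ℝ) ^ 2 ≤ (PN : ℝ) * (n : ℝ) := by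
      have := Nat.le_of_dvd (Nat.pos_of_ne_zero (mul_ne_zero hPN0 hn0)) hsn
      exact_mod_cast this
    calc ((|Algebra.norm ℤ y| : ℤ) : ℝ) ^ 2 ≤ (B * ((n : ℝ) * (s : ℝ))) ^ 2 :=
          pow_le_pow_left₀ h4 h2 2
      _ = B ^ 2 * (n : ℝ) ^ 2 * (s : ℝ) ^ 2 := by ring
      _ ≤ B ^ 2 * (n : ℝ) ^ 2 * ((PN : ℝ) * (n : ℝ)) := by
          exact mul_le_mul_of_nonneg_left h5 (by positivity)
      _ = (B ^ 2 * (PN : ℝ)) * (n : ℝ) ^ 3 := by ring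
      _ ≤ (B ^ 2 * PN + A + 1) * (n : ℝ) ^ 3 := by
          refine mul_le_mul_of_nonneg_right ?_ hnr
          linarith

end Pool.Agent.MP_ca7d12_nt
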