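import Pool.Agent.Lib.MP_ca7d12_nt.W.Scale
import Pool.Agent.Lib.MP_ca7d12_nt.W.FinSub
import Pool.Agent.Lib.MP_ca7d12_nt.W.KeyW
import Pool.Agent.Lib.MP_ca7d12_nt.W.IndexGeW
import Pool.Agent.Lib.MP_ca7d12_nt.T.MainT

set_option autoImplicit false

namespace Pool.Agent.MP_ca7d12_nt

open NumberField

namespace MainW

variable {K : Type*} [Field K] [NumberField K]

theorem markovMin_nonneg (A : Matrix (Fin 3) (Fin 3) ℝ) : 0 ≤ markovMin A := by
  apply Real.sInf_nonneg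
  rintro r ⟨x, -, rfl⟩
  exact abs_nonneg _

theorem closure_le (α' : Fin 3 → 𝓞 K) (I : Ideal (𝓞 K)) (hspan : Ideal.span (Set.range α') = I) :
    AddSubgroup.closure (Set.range α') ≤ Submodule.toAddSubgroup I := by
  rw [AddSubgroup.closure_le]
  intro y hy
  have : y ∈ Ideal.span (Set.range α') := Ideal.subset_span hy
  rw [hspan] at this
  exact this

/-- The index of `M` is its index in `I` times the norm of `I`. -/
theorem index_eq (α : Fin 3 → K) (lam : K) (hlam : lam ≠ 0) (α' : Fin 3 → 𝓞 K)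
    (hα' : ∀ j, (α' j : K) = lam * α j) (I : Ideal (𝓞 K))
    (hspan : Ideal.span (Set.range α') = I) :
    (AddSubgroup.closure (Set.range α')).index = latticeIndex K α * Ideal.absNorm I := by
  rw [latticeIndex_scale K α lam hlam α' hα' I hspan,
    ← AddSubgroup.relIndex_mul_index (closure_le α' I hspan)]
  rfl

theorem absNorm_pos (I : Ideal (𝓞 K)) (hI : I ≠ ⊥) : 1 ≤ Ideal.absNorm I := by
  have := mt Ideal.absNorm_eq_zero_iff.1 hI
  omega

theorem markov_eq (σ : Fin 3 → K →+* ℝ) (α : Fin 3 → K) (lam : K) (hlam : lam ≠ 0)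
    (α' : Fin 3 → 𝓞 K) (hα' : ∀ j, (α' j : K) = lam * α j) :
    markovMin (fun i j => σ i (α j)) = markovMin (fun i j => σ i (α' j : K)) := by
  rw [← markovMin_scale (fun i j => σ i (α j)) (fun i => σ i lam)
      (fun i => (map_ne_zero (σ i)).mpr hlam)]
  congr 1
  funext i j
  rw [hα' j, map_mul]

/-- The value of `m` times the index is bounded by the norm of any nonzero element. -/
theorem value_bound (hK : Module.finrank ℚ K = 3) (σ : Fin 3 → K →+* ℝ)
    (hσ : Function.Injective σ) (δ : ℝ) (hδ : 0 < δ)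
    (hdet : ∀ α : Fin 3 → 𝓞 K, |Matrix.det (Matrix.of fun i j => σ i (α j : K))| =
        δ * ((AddSubgroup.closure (Set.range α)).index : ℝ))
    (α : Fin 3 → K) (lam : K) (hlam : lam ≠ 0) (α' : Fin 3 → 𝓞 K)
    (hα' : ∀ j, (α' j : K) = lam * α j) (I : Ideal (𝓞 K)) (hI : I ≠ ⊥)
    (hspan : Ideal.span (Set.range α') = I) (x : 𝓞 K)
    (hx : x ∈ AddSubgroup.closure (Set.range α')) (hx0 : x ≠ 0) :
    markovMin (fun i j => σ i (α j)) * (latticeIndex K α : ℝ) ≤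
      ((|Algebra.norm ℤ x| : ℤ) : ℝ) / δ := by
  have hval := MainT.value_le hK σ hσ α' x hx hx0
  rw [← markov_eq σ α lam hlam α' hα', hdet α'] at hval
  set N : ℝ := ((|Algebra.norm ℤ x| : ℤ) : ℝ) with hN
  have hN0 : 0 ≤ N := by rw [hN]; exact_mod_cast abs_nonneg _
  have hidx := index_eq α lam hlam α' hα' I hspan
  have hle : latticeIndex K α ≤ (AddSubgroup.closure (Set.range α')).index := by
    rw [hidx]
    exact Nat.le_mul_of_pos_right _ (absNorm_pos I hI)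
  set i : ℕ := (AddSubgroup.closure (Set.range α')).index with hi
  have hle' : (latticeIndex K α : ℝ) ≤ (i : ℝ) := by exact_mod_cast hle
  have h0 : (0 : ℝ) ≤ (latticeIndex K α : ℝ) := Nat.cast_nonneg _
  rcases Nat.eq_zero_or_pos i with h | h
  · have h1 : (latticeIndex K α : ℝ) = 0 := by
      have : latticeIndex K α = 0 := by omega
      exact_mod_cast this
    rw [h1, mul_zero]
    positivity
  · have hi' : (0 : ℝ) < (i : ℝ) := by exact_mod_cast h
    calc markovMin (fun i j => σ i (α j)) * (latticeIndex K α : ℝ)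
        ≤ (N / (δ * (i : ℝ))) * (i : ℝ) :=
          mul_le_mul hval hle' h0 (by positivity)
      _ = N / δ := by field_simp

end MainW

open MainW

/-- The bound for all lattices of a totally real cubic field. -/
theorem bound_general (K : Type*) [Field K] [NumberField K] (hK : Module.finrank ℚ K = 3)
    (σ : Fin 3 → K →+* ℝ) (hσ : Function.Injective σ) (S : Finset ℕ) (hS : ∀ p ∈ S, p.Prime) :
    ∃ C : ℝ, 0 < C ∧ ∀ (α : Fin 3 → K) (n : ℕ), LinearIndependent ℚ α → IsSNumber S n →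
      StableUnder K α n →
      (markovMin (fun i j => σ i (α j)) * (latticeIndex K α : ℝ)) ^ 2 ≤ C * (n : ℝ) ^ 3 := by
  obtain ⟨L, hL0, hL⟩ := exists_reduction K
  obtain ⟨δ, hδ, hdet⟩ := det_eq_index K hK σ hσ
  have hC : ∀ I : Ideal (𝓞 K), I ∈ L → ∃ C : ℝ, 0 < C ∧ ∀ (n : ℕ), IsSNumber S n →
      ∀ M : AddSubgroup (𝓞 K), Ideal.span (M : Set (𝓞 K)) = I → (∀ y ∈ I, (n : 𝓞 K) * y ∈ M) →
      ∃ x ∈ M, x ≠ 0 ∧ ((|Algebra.norm ℤ x| : ℤ) : ℝ) ^ 2 ≤ C * (n : ℝ) ^ 3 :=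
    fun I hI => exists_small_W K hK σ hσ S hS I (hL0 I hI)
  choose! C hC0 hC using hC
  refine ⟨(∑ I ∈ L, C I) / δ ^ 2 + 1, ?_, ?_⟩
  · have : 0 ≤ ∑ I ∈ L, C I := Finset.sum_nonneg fun I hI => (hC0 I hI).le
    positivity
  intro α n hα hnS hst
  obtain ⟨I, hI, lam, α', hlam, hα', hspan, hclo⟩ := hL α n hα hst
  obtain ⟨x, hxM, hx0, hxN⟩ := hC I hI n hnS _ (MainT.span_closure I α' hspan) hclo
  have h1 := value_bound hK σ hσ δ hδ hdet α lam hlam α' hα' I (hL0 I hI) hspan x hxM hx0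
  have h2 : 0 ≤ markovMin (fun i j => σ i (α j)) * (latticeIndex K α : ℝ) :=
    mul_nonneg (markovMin_nonneg _) (Nat.cast_nonneg _)
  have h3 : C I ≤ ∑ I ∈ L, C I := Finset.single_le_sum (fun J hJ => (hC0 J hJ).le) hI
  have hn3 : (0 : ℝ) ≤ (n : ℝ) ^ 3 := by positivity
  calc (markovMin (fun i j => σ i (α j)) * (latticeIndex K α : ℝ)) ^ 2
      ≤ (((|Algebra.norm ℤ x| : ℤ) : ℝ) / δ) ^ 2 := pow_le_pow_left₀ h2 h1 2
    _ = ((|Algebra.norm ℤ x| : ℤ) : ℝ) ^ 2 / δ ^ 2 := by ring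
    _ ≤ (C I * (n : ℝ) ^ 3) / δ ^ 2 := by gcongr
    _ ≤ ((∑ I ∈ L, C I) * (n : ℝ) ^ 3) / δ ^ 2 := by gcongr
    _ = ((∑ I ∈ L, C I) / δ ^ 2) * (n : ℝ) ^ 3 := by ring
    _ ≤ ((∑ I ∈ L, C I) / δ ^ 2 + 1) * (n : ℝ) ^ 3 := by
        refine mul_le_mul_of_nonneg_right ?_ hn3
        linarith

/-- The bound when the units are open modulo scalars. -/
theorem bound_open (K : Type*) [Field K] [NumberField K] (hK : Module.finrank ℚ K = 3)
    (σ : Fin 3 → K →+* ℝ) (hσ : Function.Injective σ) (S : Finset ℕ) (hS : ∀ p ∈ S, p.Prime)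
    (hU : UnitsOpen (𝓞 K) (∏ p ∈ S, (p : ℤ))) :
    ∃ C : ℝ, 0 < C ∧ ∀ (α : Fin 3 → K) (n : ℕ), LinearIndependent ℚ α → IsSNumber S n →
      StableUnder K α n →
      markovMin (fun i j => σ i (α j)) * (latticeIndex K α : ℝ) ≤ C := by
  obtain ⟨L, hL0, hL⟩ := exists_reduction K
  obtain ⟨δ, hδ, hdet⟩ := det_eq_index K hK σ hσ
  have hP0 : (∏ p ∈ S, (p : ℤ)) ≠ 0 :=
    Finset.prod_ne_zero_iff.mpr fun p hp => by exact_mod_cast (hS p hp).ne_zero
  have hC : ∀ I : Ideal (𝓞 K), I ∈ L → ∃ C : ℤ, ∀ M : AddSubgroup (𝓞 K),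
      Ideal.span (M : Set (𝓞 K)) = I →
      (∃ k : ℕ, ∀ y ∈ I, (((∏ p ∈ S, (p : ℤ)) : ℤ) : 𝓞 K) ^ k * y ∈ M) →
      ∃ x ∈ M, x ≠ 0 ∧ |Algebra.norm ℤ x| ≤ C :=
    fun I hI => exists_small K _ hP0 hU I (hL0 I hI)
  choose! C hC using hC
  refine ⟨(∑ I ∈ L, |(C I : ℝ)|) / δ + 1, ?_, ?_⟩
  · have : 0 ≤ ∑ I ∈ L, |(C I : ℝ)| := Finset.sum_nonneg fun I hI => abs_nonneg _
    positivity
  rintro α n hα ⟨hn0, hnS⟩ hst
  obtain ⟨I, hI, lam, α', hlam, hα', hspan, hclo⟩ := hL α n hα hst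
  obtain ⟨x, hxM, hx0, hxN⟩ := hC I hI _ (MainT.span_closure I α' hspan) (by
    obtain ⟨k, hk⟩ := dvd_pow_of_primes (∏ p ∈ S, p) n hn0 (fun p hp hpn =>
      Finset.dvd_prod_of_mem (fun p : ℕ => p) (hnS p hp hpn))
    refine ⟨k, fun y hy => ?_⟩
    obtain ⟨q, hq⟩ := hk
    have h1 : (((∏ p ∈ S, (p : ℤ)) : ℤ) : 𝓞 K) ^ k = (q : 𝓞 K) * (n : 𝓞 K) := by
      have h2 : ((∏ p ∈ S, p : ℕ) : 𝓞 K) ^ k = (n : 𝓞 K) * (q : 𝓞 K) := by
        exact_mod_cast congrArg (fun z : ℕ => (z : 𝓞 K)) hq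
      rw [mul_comm, ← h2]
      push_cast
      rfl
    rw [h1, mul_assoc, ← nsmul_eq_mul]
    exact AddSubgroup.nsmul_mem _ (hclo y hy) q)
  have h1 := value_bound hK σ hσ δ hδ hdet α lam hlam α' hα' I (hL0 I hI) hspan x hxM hx0
  have h2 : ((|Algebra.norm ℤ x| : ℤ) : ℝ) ≤ |(C I : ℝ)| := by
    have : ((|Algebra.norm ℤ x| : ℤ) : ℝ) ≤ (C I : ℝ) := by exact_mod_cast hxN
    exact this.trans (le_abs_self _)
  have h3 : |(C I : ℝ)| ≤ ∑ I ∈ L, |(C I : ℝ)| :=
    Finset.single_le_sum (f := fun I => |(C I : ℝ)|) (fun J hJ => abs_nonneg _) hI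
  calc markovMin (fun i j => σ i (α j)) * (latticeIndex K α : ℝ)
      ≤ ((|Algebra.norm ℤ x| : ℤ) : ℝ) / δ := h1
    _ ≤ (∑ I ∈ L, |(C I : ℝ)|) / δ := by
        gcongr
        exact h2.trans h3
    _ ≤ _ := by linarith

/-- Lattices of bounded index: finitely many up to homothety, and finitely many values. -/
theorem finite_of_index (K : Type*) [Field K] [NumberField K] (hK : Module.finrank ℚ K = 3)
    (σ : Fin 3 → K →+* ℝ) (hσ : Function.Injective σ) (B : ℕ) :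
    (∃ T : Finset (Submodule ℤ K), ∀ (α : Fin 3 → K) (n : ℕ), LinearIndependent ℚ α → n ≠ 0 →
      StableUnder K α n → latticeIndex K α ≤ B →
      ∃ c : K, c ≠ 0 ∧ Submodule.span ℤ (Set.range fun j => c * α j) ∈ T) ∧
    ∀ ε : ℝ, 0 < ε → {m : ℝ | ∃ (α : Fin 3 → K) (n : ℕ), LinearIndependent ℚ α ∧ n ≠ 0 ∧
      StableUnder K α n ∧ latticeIndex K α ≤ B ∧
      m = markovMin (fun i j => σ i (α j)) ∧ ε ≤ m}.Finite := by
  classical
  obtain ⟨L, hL0, hL⟩ := exists_reduction K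
  set B' : ℕ := B * ∑ I ∈ L, Ideal.absNorm I with hB'
  have hidx : ∀ (α : Fin 3 → K) (n : ℕ), n ≠ 0 → latticeIndex K α ≤ B →
      ∀ (I : Ideal (𝓞 K)) (lam : K) (α' : Fin 3 → 𝓞 K), I ∈ L → lam ≠ 0 →
      (∀ j, (α' j : K) = lam * α j) → Ideal.span (Set.range α') = I →
      (∀ y ∈ I, (n : 𝓞 K) * y ∈ AddSubgroup.closure (Set.range α')) →
      (AddSubgroup.closure (Set.range α')).index ≠ 0 ∧
      (AddSubgroup.closure (Set.range α')).index ≤ B' := by
    intro α n hn hB I lam α' hI hlam hα' hspan hclo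
    constructor
    · have hle : Submodule.toAddSubgroup (Ideal.span {(n : 𝓞 K)} * I) ≤
          AddSubgroup.closure (Set.range α') := by
        intro x hx
        obtain ⟨z, hz, rfl⟩ := Ideal.mem_span_singleton_mul.1 hx
        exact hclo z hz
      have h1 := AddSubgroup.relIndex_mul_index hle
      have h2 : (Submodule.toAddSubgroup (Ideal.span {(n : 𝓞 K)} * I)).index =
          Ideal.absNorm (Ideal.span {(n : 𝓞 K)} * I) := rfl
      have h3 : Ideal.absNorm (Ideal.span {(n : 𝓞 K)} * I) ≠ 0 := by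
        rw [Ne, Ideal.absNorm_eq_zero_iff]
        refine mul_ne_zero ?_ (hL0 I hI)
        rw [Ne, Ideal.zero_eq_bot, Ideal.span_singleton_eq_bot]
        exact Nat.cast_ne_zero.mpr hn
      rw [h2] at h1
      rw [← h1] at h3
      exact right_ne_zero_of_mul h3
    · rw [index_eq α lam hlam α' hα' I hspan, hB']
      exact Nat.mul_le_mul hB (Finset.single_le_sum (f := fun I => Ideal.absNorm I)
        (fun J _ => Nat.zero_le _) hI)
  constructor
  · let f : 𝓞 K →ₗ[ℤ] K := (Algebra.linearMap (𝓞 K) K).restrictScalars ℤ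
    refine ⟨(finite_subgroups K B').toFinset.image
      (fun M => (AddSubgroup.toIntSubmodule M).map f), ?_⟩
    intro α n hα hn hst hB
    obtain ⟨I, hI, lam, α', hlam, hα', hspan, hclo⟩ := hL α n hα hst
    refine ⟨lam, hlam, ?_⟩
    rw [Finset.mem_image]
    refine ⟨AddSubgroup.closure (Set.range α'), ?_, ?_⟩
    · rw [Set.Finite.mem_toFinset]
      exact hidx α n hn hB I lam α' hI hlam hα' hspan hclo
    · have h1 : AddSubgroup.toIntSubmodule (AddSubgroup.closure (Set.range α')) =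
          Submodule.span ℤ (Set.range α') := by
        rw [← Submodule.span_int_eq_addSubgroupClosure]
        exact Submodule.toAddSubgroup_toIntSubmodule _
      rw [h1, Submodule.map_span, ← Set.range_comp]
      congr 2
      funext j
      exact hα' j
  · intro ε hε
    refine Set.Finite.subset (Set.Finite.biUnion (Finset.finite_toSet L)
      (fun I hI => finite_values K hK σ hσ I (hL0 I hI) ((B' : ℤ) ^ 3) ε hε)) ?_
    rintro m ⟨α, n, hα, hn, hst, hB, hm, hεm⟩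
    obtain ⟨I, hI, lam, α', hlam, hα', hspan, hclo⟩ := hL α n hα hst
    refine Set.mem_biUnion (x := I) hI ?_
    obtain ⟨hi0, hiB⟩ := hidx α n hn hB I lam α' hI hlam hα' hspan hclo
    set M : AddSubgroup (𝓞 K) := AddSubgroup.closure (Set.range α') with hM
    refine ⟨α', fun j => closure_le α' I hspan (AddSubgroup.subset_closure ⟨j, rfl⟩),
      ⟨(M.index : 𝓞 K), ?_, Nat.cast_ne_zero.mpr hi0, ?_⟩, ?_, hεm⟩
    · have h1 := M.nsmul_index_mem (1 : 𝓞 K)
      rw [nsmul_eq_mul, mul_one] at h1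
      exact h1
    · have h1 : Algebra.norm ℤ ((M.index : ℕ) : 𝓞 K) = (M.index : ℤ) ^ 3 := by
        have e : ((M.index : ℕ) : 𝓞 K) = algebraMap ℤ (𝓞 K) (M.index : ℤ) := by simp
        rw [e, Algebra.norm_algebraMap, NumberField.RingOfIntegers.rank, hK]
      rw [h1, abs_of_nonneg (by positivity)]
      exact pow_le_pow_left₀ (by positivity) (by exact_mod_cast hiB) 3
    · rw [hm, markov_eq σ α lam hlam α' hα']

end Pool.Agent.MP_ca7d12_nt
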