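import Pool.Agent.Lib.MP_ca7d12_nt.W.CycIdx
import Pool.Agent.Lib.MP_ca7d12_nt.Leo.CyclicAll

set_option autoImplicit false

namespace Pool.Agent.MP_ca7d12_nt

open NumberField

/-- All lattices with conductor supported on `S` when the units are open modulo scalars. -/
theorem final_open (K : Type*) [Field K] [NumberField K] (hK : Module.finrank ℚ K = 3)
    (σ : Fin 3 → K →+* ℝ) (hσ : Function.Injective σ) (S : Finset ℕ) (hS : ∀ p ∈ S, p.Prime)
    (hU : UnitsOpen (𝓞 K) (∏ p ∈ S, (p : ℤ))) :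
    (∃ C : ℝ, ∀ (α : Fin 3 → K) (n : ℕ), LinearIndependent ℚ α → IsSNumber S n →
      StableUnder K α n →
      markovMin (fun i j => σ i (α j)) * (latticeIndex K α : ℝ) ≤ C) ∧
    ∀ ε : ℝ, 0 < ε →
      (∃ T : Finset (Submodule ℤ K), ∀ (α : Fin 3 → K) (n : ℕ), LinearIndependent ℚ α →
        IsSNumber S n → StableUnder K α n → ε ≤ markovMin (fun i j => σ i (α j)) →
        ∃ c : K, c ≠ 0 ∧ Submodule.span ℤ (Set.range fun j => c * α j) ∈ T) ∧
      {m : ℝ | ∃ α : Fin 3 → K, LinearIndependent ℚ α ∧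
        (∃ n : ℕ, IsSNumber S n ∧ StableUnder K α n) ∧
        m = markovMin (fun i j => σ i (α j)) ∧ ε ≤ m}.Finite := by
  obtain ⟨C, hC0, hC⟩ := bound_open K hK σ hσ S hS hU
  refine ⟨⟨C, hC⟩, fun ε hε => ⟨?_, main_of_unitsOpen K hK σ hσ S hS hU ε hε⟩⟩
  obtain ⟨⟨T, hT⟩, -⟩ := finite_of_index K hK σ hσ ⌊C / ε⌋₊
  refine ⟨T, fun α n hα hn hst hm => hT α n hα hn.1 hst ?_⟩
  apply Nat.le_floor
  rw [le_div_iff₀ hε]
  calc (latticeIndex K α : ℝ) * ε ≤ (latticeIndex K α : ℝ) * markovMin (fun i j => σ i (α j)) :=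
        mul_le_mul_of_nonneg_left hm (Nat.cast_nonneg _)
    _ = markovMin (fun i j => σ i (α j)) * (latticeIndex K α : ℝ) := mul_comm _ _
    _ ≤ C := hC α n hα hn hst

/-- All lattices of a cyclic cubic field with conductor supported on a finite set of primes. -/
theorem final_cyclic (K : Type*) [Field K] [NumberField K] (hK : Module.finrank ℚ K = 3)
    (hG : IsGalois ℚ K) (σ : Fin 3 → K →+* ℝ) (hσ : Function.Injective σ) (S : Finset ℕ)
    (hS : ∀ p ∈ S, p.Prime) :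
    (∃ C : ℝ, ∀ (α : Fin 3 → K) (n : ℕ), LinearIndependent ℚ α → IsSNumber S n →
      StableUnder K α n →
      markovMin (fun i j => σ i (α j)) * (latticeIndex K α : ℝ) ≤ C) ∧
    ∀ ε : ℝ, 0 < ε →
      (∃ T : Finset (Submodule ℤ K), ∀ (α : Fin 3 → K) (n : ℕ), LinearIndependent ℚ α →
        IsSNumber S n → StableUnder K α n → ε ≤ markovMin (fun i j => σ i (α j)) →
        ∃ c : K, c ≠ 0 ∧ Submodule.span ℤ (Set.range fun j => c * α j) ∈ T) ∧
      {m : ℝ | ∃ α : Fin 3 → K, LinearIndependent ℚ α ∧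
        (∃ n : ℕ, IsSNumber S n ∧ StableUnder K α n) ∧
        m = markovMin (fun i j => σ i (α j)) ∧ ε ≤ m}.Finite :=
  final_open K hK σ hσ S hS (unitsOpen_cyclic_all K hK σ hσ S hS)

theorem le_of_sq_le_sq_nonneg (a b : ℝ) (hb : 0 ≤ b) (h : a ^ 2 ≤ b ^ 2) : a ≤ b := by
  by_contra hc
  push Not at hc
  nlinarith

/-- All totally real cubic fields: the explicit bound, and its consequences for lattices of index at
least `n ^ (3 / 2 + δ)` and for invertible modules over `ℤ + n 𝓞_K`. -/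
theorem final_general (K : Type*) [Field K] [NumberField K] (hK : Module.finrank ℚ K = 3)
    (σ : Fin 3 → K →+* ℝ) (hσ : Function.Injective σ) (S : Finset ℕ) (hS : ∀ p ∈ S, p.Prime) :
    (∃ C : ℝ, ∀ (α : Fin 3 → K) (n : ℕ), LinearIndependent ℚ α → IsSNumber S n →
      StableUnder K α n →
      markovMin (fun i j => σ i (α j)) * (latticeIndex K α : ℝ) ≤ C * (n : ℝ) ^ (3 / 2 : ℝ)) ∧
    (∀ (α : Fin 3 → K) (n : ℕ), LinearIndependent ℚ α → IsSNumber S n →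
      CyclicModulo K α n → n ^ 2 ≤ latticeIndex K α) ∧
    ∀ δ ε : ℝ, 0 < δ → 0 < ε →
      (∃ T : Finset (Submodule ℤ K), ∀ (α : Fin 3 → K) (n : ℕ), LinearIndependent ℚ α →
        IsSNumber S n → StableUnder K α n → (n : ℝ) ^ (3 / 2 + δ) ≤ (latticeIndex K α : ℝ) →
        ε ≤ markovMin (fun i j => σ i (α j)) →
        ∃ c : K, c ≠ 0 ∧ Submodule.span ℤ (Set.range fun j => c * α j) ∈ T) ∧
      {m : ℝ | ∃ α : Fin 3 → K, LinearIndependent ℚ α ∧
        (∃ n : ℕ, IsSNumber S n ∧ StableUnder K α n ∧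
          (n : ℝ) ^ (3 / 2 + δ) ≤ (latticeIndex K α : ℝ)) ∧
        m = markovMin (fun i j => σ i (α j)) ∧ ε ≤ m}.Finite := by
  obtain ⟨C, hC0, hC⟩ := bound_general K hK σ hσ S hS
  have hC' : ∀ (α : Fin 3 → K) (n : ℕ), LinearIndependent ℚ α → IsSNumber S n →
      StableUnder K α n →
      markovMin (fun i j => σ i (α j)) * (latticeIndex K α : ℝ) ≤
        Real.sqrt C * (n : ℝ) ^ (3 / 2 : ℝ) := by
    intro α n hα hn hst
    have h1 := hC α n hα hn hst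
    have hn0 : (0 : ℝ) ≤ (n : ℝ) := Nat.cast_nonneg _
    have h2 : (Real.sqrt C * (n : ℝ) ^ (3 / 2 : ℝ)) ^ 2 = C * (n : ℝ) ^ 3 := by
      rw [mul_pow, Real.sq_sqrt hC0.le, ← Real.rpow_natCast ((n : ℝ) ^ (3 / 2 : ℝ)) 2,
        ← Real.rpow_mul hn0, ← Real.rpow_natCast (n : ℝ) 3]
      norm_num
    rw [← h2] at h1
    exact le_of_sq_le_sq_nonneg _ _ (by positivity) h1
  refine ⟨⟨Real.sqrt C, hC'⟩, fun α n hα hn hcy => latticeIndex_ge K hK α n hn.1 hα hcy, ?_⟩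
  intro δ ε hδ hε
  set s : ℝ := Real.sqrt C with hs
  have hs0 : 0 < s := Real.sqrt_pos.mpr hC0
  set N₀ : ℝ := (s / ε) ^ (1 / δ) with hN₀
  set B : ℕ := ⌊s / ε * N₀ ^ (3 / 2 : ℝ)⌋₊ with hB
  have hse : 0 < s / ε := div_pos hs0 hε
  have key : ∀ (α : Fin 3 → K) (n : ℕ), LinearIndependent ℚ α → IsSNumber S n →
      StableUnder K α n → (n : ℝ) ^ (3 / 2 + δ) ≤ (latticeIndex K α : ℝ) →
      ε ≤ markovMin (fun i j => σ i (α j)) → latticeIndex K α ≤ B := by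
    intro α n hα hn hst hidx hm
    have hn0 : (0 : ℝ) < (n : ℝ) := by exact_mod_cast Nat.pos_of_ne_zero hn.1
    have h1 : ε * (latticeIndex K α : ℝ) ≤ s * (n : ℝ) ^ (3 / 2 : ℝ) :=
      (mul_le_mul_of_nonneg_right hm (Nat.cast_nonneg _)).trans (hC' α n hα hn hst)
    have h2 : (latticeIndex K α : ℝ) ≤ s / ε * (n : ℝ) ^ (3 / 2 : ℝ) := by
      rw [div_mul_eq_mul_div, le_div_iff₀ hε]
      linarith
    have h3 : (n : ℝ) ^ δ ≤ s / ε := by
      have h4 : (n : ℝ) ^ (3 / 2 : ℝ) * (n : ℝ) ^ δ ≤ (n : ℝ) ^ (3 / 2 : ℝ) * (s / ε) := by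
        rw [← Real.rpow_add hn0]
        calc (n : ℝ) ^ (3 / 2 + δ) ≤ (latticeIndex K α : ℝ) := hidx
          _ ≤ s / ε * (n : ℝ) ^ (3 / 2 : ℝ) := h2
          _ = (n : ℝ) ^ (3 / 2 : ℝ) * (s / ε) := mul_comm _ _
      exact le_of_mul_le_mul_left h4 (by positivity)
    have h5 : (n : ℝ) ≤ N₀ := by
      rw [hN₀]
      calc (n : ℝ) = ((n : ℝ) ^ δ) ^ (1 / δ) := by
            rw [← Real.rpow_mul hn0.le, mul_one_div_cancel hδ.ne', Real.rpow_one]
        _ ≤ (s / ε) ^ (1 / δ) := Real.rpow_le_rpow (by positivity) h3 (by positivity)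
    apply Nat.le_floor
    refine h2.trans ?_
    exact mul_le_mul_of_nonneg_left (Real.rpow_le_rpow hn0.le h5 (by norm_num)) hse.le
  obtain ⟨⟨T, hT⟩, hV⟩ := finite_of_index K hK σ hσ B
  refine ⟨⟨T, fun α n hα hn hst hidx hm => hT α n hα hn.1 hst (key α n hα hn hst hidx hm)⟩, ?_⟩
  refine (hV ε hε).subset ?_
  rintro m ⟨α, hα, ⟨n, hn, hst, hidx⟩, hm, hεm⟩
  exact ⟨α, n, hα, hn.1, hst, key α n hα hn hst hidx (hm ▸ hεm), hm, hεm⟩

end Pool.Agent.MP_ca7d12_nt
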