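import Pool.Agent.Lib.MP_ca7d12_nt.T.Defs
import Pool.Agent.Lib.MP_ca7d12_nt.T.IndexDefs

set_option autoImplicit false

namespace Pool.Agent.MP_ca7d12_nt

open NumberField

/-- The index `[𝓞_K M : M]` of the lattice `M = ℤ α₀ + ℤ α₁ + ℤ α₂` in the `𝓞_K`-module `𝓞_K M`
that it generates. -/
noncomputable def latticeIndex (K : Type*) [Field K] [NumberField K] (α : Fin 3 → K) : ℕ :=
  (Submodule.span ℤ (Set.range α)).toAddSubgroup.relIndex
    (Submodule.span (𝓞 K) (Set.range α)).toAddSubgroup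

end Pool.Agent.MP_ca7d12_nt
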