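import Pool.Agent.Lib.MP_ca7d12_nt.W.DvdMulW
import Pool.Agent.Lib.MP_ca7d12_nt.T.IndexLL

set_option autoImplicit false

namespace Pool.Agent.MP_ca7d12_nt

open NumberField

private theorem indexW_norm (K : Type*) [Field K] [NumberField K] (hK : Module.finrank ℚ K = 3)
    (n : ℕ) : Ideal.absNorm (Ideal.span {(n : 𝓞 K)}) = n ^ 3 := by
  rw [Ideal.absNorm_span_singleton]
  have h1 : Algebra.norm ℤ ((n : ℤ) : 𝓞 K) = (n : ℤ) ^ 3 := by
    have h2 := Algebra.norm_algebraMap_of_basis (RingOfIntegers.basis K) (n : ℤ)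
    rw [← Module.finrank_eq_card_basis (RingOfIntegers.basis K), RingOfIntegers.rank, hK] at h2
    rw [← h2]
    rfl
  have h3 : ((n : ℕ) : 𝓞 K) = ((n : ℤ) : 𝓞 K) := by push_cast; rfl
  rw [h3, h1, Int.natAbs_pow, Int.natAbs_natCast]

private theorem indexW_small {n a A c c' : ℕ} (hA : ∀ c < A, a * c < n) (ha : a ≠ 0)
    (hc : c < A) (hc' : c' < A) (h : (n : ℤ) ∣ a * ((c' : ℤ) - c)) : c = c' := by
  have h1 := hA c hc
  have h2 := hA c' hc'
  have h3 : |(a : ℤ) * ((c' : ℤ) - c)| < n := by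
    rw [abs_lt]
    have h4 : ((a * c : ℕ) : ℤ) < n := by exact_mod_cast h1
    have h5 : ((a * c' : ℕ) : ℤ) < n := by exact_mod_cast h2
    push_cast at h4 h5
    have h6 : (0 : ℤ) ≤ a * c := by positivity
    have h7 : (0 : ℤ) ≤ a * c' := by positivity
    constructor
    · rw [mul_sub]
      linarith
    · rw [mul_sub]
      linarith
  have h8 := Int.eq_zero_of_abs_lt_dvd h h3
  rcases mul_eq_zero.1 h8 with h9 | h9
  · exact absurd (by exact_mod_cast h9) ha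
  · omega

private theorem indexW_ceil (n : ℕ) {a : ℕ} (ha : a ≠ 0) :
    ∃ A : ℕ, (∀ c < A, a * c < n) ∧ n ≤ a * A := by
  refine ⟨(n + a - 1) / a, fun c hc => ?_, ?_⟩
  · have h1 : c + 1 ≤ (n + a - 1) / a := hc
    rw [Nat.le_div_iff_mul_le (Nat.pos_of_ne_zero ha)] at h1
    have h2 : (c + 1) * a = a * c + a := by ring
    omega
  · have h1 := Nat.lt_mul_div_succ (n + a - 1) (Nat.pos_of_ne_zero ha)
    have h2 : a * ((n + a - 1) / a + 1) = a * ((n + a - 1) / a) + a := by ring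
    omega

/-- The index of `LL` when `H I ⊆ g 𝓞 + n I`. (Same proof as `index_LL` in `T/IndexLL.lean`, with
`A = ⌈n / (H a)⌉`, `B = ⌈n / (H b)⌉` and `dvd_of_mul_mem_W` instead of `dvd_of_mul_mem`.) -/
theorem index_LL_W (K : Type*) [Field K] [NumberField K] (hK : Module.finrank ℚ K = 3)
    (I : Ideal (𝓞 K)) (hI : I ≠ ⊥) (n : ℕ) (hn : n ≠ 0) (H : ℕ) (hH : H ≠ 0) (g v : 𝓞 K)
    (a b : ℕ) (ha : a ≠ 0) (hb : b ≠ 0) (hg : g ∈ I)
    (hgen : ∀ y ∈ I, ∃ z : 𝓞 K, ∃ y' ∈ I, (H : 𝓞 K) * y = g * z + (n : 𝓞 K) * y')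
    (hind : ∀ x y : ℤ, (n : 𝓞 K) ∣ (x : 𝓞 K) + (y : 𝓞 K) * v → (n : ℤ) ∣ x ∧ (n : ℤ) ∣ y) :
    (LL K I n g v a b).index ≠ 0 ∧
      (LL K I n g v a b).index ≤ Ideal.absNorm I * (n * (H * a) * (H * b)) := by
  classical
  set J : Ideal (𝓞 K) := Ideal.span {(n : 𝓞 K)} * I with hJ
  have hmem : ∀ x, x ∈ J ↔ ∃ z ∈ I, (n : 𝓞 K) * z = x := fun x => by
    rw [hJ, Ideal.mem_span_singleton_mul]
  have hJidx : (Submodule.toAddSubgroup J).index = n ^ 3 * Ideal.absNorm I := by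
    have h1 : (Submodule.toAddSubgroup J).index = Ideal.absNorm J := rfl
    rw [h1, hJ, map_mul, indexW_norm K hK]
  have hI0 : Ideal.absNorm I ≠ 0 := fun h => hI (Ideal.absNorm_eq_zero_iff.1 h)
  have hle : Submodule.toAddSubgroup J ≤ LL K I n g v a b := by
    intro x hx
    obtain ⟨z, hz, rfl⟩ := (hmem x).1 hx
    exact ⟨0, 0, z, hz, by push_cast; ring⟩
  have hmul := AddSubgroup.relIndex_mul_index hle
  rw [hJidx] at hmul
  have hne : (Submodule.toAddSubgroup J).relIndex (LL K I n g v a b) *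
      (LL K I n g v a b).index ≠ 0 := by
    rw [hmul]
    exact mul_ne_zero (pow_ne_zero _ hn) hI0
  have hne1 := left_ne_zero_of_mul hne
  have hne2 := right_ne_zero_of_mul hne
  refine ⟨hne2, ?_⟩
  obtain ⟨A, hA1, hA2⟩ := indexW_ceil n (Nat.mul_ne_zero hH ha)
  obtain ⟨B, hB1, hB2⟩ := indexW_ceil n (Nat.mul_ne_zero hH hb)
  have hin : ∀ c t : ℤ, g * ((a : 𝓞 K) * (c : 𝓞 K) + (b : 𝓞 K) * (t : 𝓞 K) * v) ∈
      LL K I n g v a b := fun c t => ⟨c, t, 0, I.zero_mem, by ring⟩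
  let φ : Fin A × Fin B → (LL K I n g v a b) ⧸
      ((Submodule.toAddSubgroup J).addSubgroupOf (LL K I n g v a b)) := fun p =>
    QuotientAddGroup.mk ⟨_, hin (p.1 : ℕ) (p.2 : ℕ)⟩
  have hinj : Function.Injective φ := by
    rintro ⟨c, t⟩ ⟨c', t'⟩ h
    have h1 := QuotientAddGroup.eq.1 h
    have h2 := (hmem _).1 (AddSubgroup.mem_addSubgroupOf.1 h1)
    obtain ⟨z, hz, hz2⟩ := h2
    have h3 : g * (((a : ℤ) * ((c' : ℕ) - (c : ℕ) : ℤ) : ℤ) +
        (((b : ℤ) * ((t' : ℕ) - (t : ℕ) : ℤ) : ℤ) : 𝓞 K) * v) = (n : 𝓞 K) * z := by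
      rw [hz2]
      push_cast
      ring
    have h4 := dvd_of_mul_mem_W K I hI n hn H g hgen _ z hz h3
    have h4' : (n : 𝓞 K) ∣ ((((H * a : ℕ) : ℤ) * ((c' : ℕ) - (c : ℕ) : ℤ) : ℤ) : 𝓞 K) +
        ((((H * b : ℕ) : ℤ) * ((t' : ℕ) - (t : ℕ) : ℤ) : ℤ) : 𝓞 K) * v := by
      refine Eq.mp (congrArg (fun w => (n : 𝓞 K) ∣ w) ?_) h4
      push_cast
      ring
    obtain ⟨h5, h6⟩ := hind _ _ h4'
    have h7 := indexW_small hA1 (Nat.mul_ne_zero hH ha) c.2 c'.2 h5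
    have h8 := indexW_small hB1 (Nat.mul_ne_zero hH hb) t.2 t'.2 h6
    exact Prod.ext (Fin.ext h7) (Fin.ext h8)
  have hfin : Finite ((LL K I n g v a b) ⧸
      ((Submodule.toAddSubgroup J).addSubgroupOf (LL K I n g v a b))) :=
    Nat.finite_of_card_ne_zero hne1
  have hcard : A * B ≤ (Submodule.toAddSubgroup J).relIndex (LL K I n g v a b) := by
    have := Nat.card_le_card_of_injective φ hinj
    rw [Nat.card_prod, Nat.card_fin, Nat.card_fin] at this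
    exact this
  set R := (Submodule.toAddSubgroup J).relIndex (LL K I n g v a b) with hR
  set L := (LL K I n g v a b).index with hL
  have h1 : n * n ≤ ((H * a) * (H * b)) * R := by
    calc n * n ≤ ((H * a) * A) * ((H * b) * B) := Nat.mul_le_mul hA2 hB2
      _ = ((H * a) * (H * b)) * (A * B) := by ring
      _ ≤ ((H * a) * (H * b)) * R := Nat.mul_le_mul_left _ hcard
  have h2 : (n * n) * L ≤ (n * n) * (Ideal.absNorm I * (n * (H * a) * (H * b))) := by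
    calc (n * n) * L ≤ (((H * a) * (H * b)) * R) * L := Nat.mul_le_mul_right _ h1
      _ = ((H * a) * (H * b)) * (R * L) := by ring
      _ = ((H * a) * (H * b)) * (n ^ 3 * Ideal.absNorm I) := by rw [hmul]
      _ = (n * n) * (Ideal.absNorm I * (n * (H * a) * (H * b))) := by ring
  exact Nat.le_of_mul_le_mul_left h2 (Nat.mul_pos (Nat.pos_of_ne_zero hn) (Nat.pos_of_ne_zero hn))

end Pool.Agent.MP_ca7d12_nt
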