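import Pool.Agent.Lib.MP_ca7d12_nt.W.Defs

set_option autoImplicit false

namespace Pool.Agent.MP_ca7d12_nt

open NumberField

/-- The index of a lattice does not change under homothety. -/
theorem latticeIndex_scale (K : Type*) [Field K] [NumberField K] (α : Fin 3 → K) (lam : K)
    (hlam : lam ≠ 0) (α' : Fin 3 → 𝓞 K) (hα' : ∀ j, (α' j : K) = lam * α j)
    (I : Ideal (𝓞 K)) (hspan : Ideal.span (Set.range α') = I) :
    latticeIndex K α =
      (AddSubgroup.closure (Set.range α')).relIndex (Submodule.toAddSubgroup I) := by
  let F : 𝓞 K →ₗ[𝓞 K] K := Algebra.linearMap (𝓞 K) K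
  let G : K →ₗ[𝓞 K] K := LinearMap.mulLeft (𝓞 K) lam
  let f : 𝓞 K →+ K := F
  let g : K →+ K := G
  have hf : Function.Injective f := by
    intro x y hxy
    exact RingOfIntegers.coe_injective hxy
  have hg : Function.Injective g := by
    intro x y hxy
    have h1 : lam * x = lam * y := hxy
    exact mul_left_cancel₀ hlam h1
  have himg : (F : 𝓞 K → K) '' (Set.range α') = (G : K → K) '' (Set.range α) := by
    rw [← Set.range_comp, ← Set.range_comp]
    congr 1
    funext j
    exact hα' j
  have h1 : (AddSubgroup.closure (Set.range α')).map f =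
      ((Submodule.span ℤ (Set.range α)).toAddSubgroup).map g := by
    rw [Submodule.span_int_eq_addSubgroupClosure, AddMonoidHom.map_closure,
      AddMonoidHom.map_closure]
    exact congrArg AddSubgroup.closure himg
  have h2 : (Submodule.toAddSubgroup I).map f =
      ((Submodule.span (𝓞 K) (Set.range α)).toAddSubgroup).map g := by
    have h3 : Submodule.map F I = Submodule.map G (Submodule.span (𝓞 K) (Set.range α)) := by
      rw [← hspan, Ideal.span, Submodule.map_span, Submodule.map_span, himg]
    have h4 := congrArg Submodule.toAddSubgroup h3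
    rw [Submodule.map_toAddSubgroup, Submodule.map_toAddSubgroup] at h4
    exact h4
  rw [latticeIndex, ← AddSubgroup.relIndex_map_map_of_injective _ _ hg, ← h1, ← h2,
    AddSubgroup.relIndex_map_map_of_injective _ _ hf]

end Pool.Agent.MP_ca7d12_nt
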